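import Pool.Agent.Helper36.CV.StmtsE

set_option autoImplicit false

namespace Pool.Agent.Helper33.CV.E9

open Pool.Agent.Helper36.CV

lemma s5 : Real.sqrt 5 ^ 2 = 5 := Real.sq_sqrt (by norm_num)

lemma s5lo : 2 < Real.sqrt 5 := by
  have h := s5
  have h0 := Real.sqrt_nonneg 5
  nlinarith

lemma s5hi : Real.sqrt 5 < 3 := by
  have h := s5
  have h0 := Real.sqrt_nonneg 5
  nlinarith

lemma phi_gam : phi = 1 + gam := by unfold phi gam; ring

lemma gam_sq : gam ^ 2 = 1 - gam := by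
  have h := s5
  unfold gam
  linarith [h]

lemma gam_pos : 0 < gam := by
  have h := s5lo
  unfold gam
  linarith

lemma gam_lt : gam < 1 := by
  have h := s5hi
  unfold gam
  linarith

lemma phi_sq : phi ^ 2 = 2 + gam := by
  have h := gam_sq
  rw [phi_gam]
  linarith [h]

lemma phi_mul_gam : phi * gam = 1 := by
  have h := gam_sq
  rw [phi_gam]
  linarith [h]

lemma phi_pos : 0 < phi := by
  have := gam_pos
  rw [phi_gam]
  linarith

lemma zv_add (x y : ℤ × ℤ) : zv (x + y) = zv x + zv y := by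
  simp only [zv, Prod.fst_add, Prod.snd_add, Int.cast_add]
  ring

lemma zc_add (x y : ℤ × ℤ) : zc (x + y) = zc x + zc y := by
  simp only [zc, Prod.fst_add, Prod.snd_add, Int.cast_add]
  ring

lemma zv_sub (x y : ℤ × ℤ) : zv (x - y) = zv x - zv y := by
  simp only [zv, Prod.fst_sub, Prod.snd_sub, Int.cast_sub]
  ring

lemma zc_sub (x y : ℤ × ℤ) : zc (x - y) = zc x - zc y := by
  simp only [zc, Prod.fst_sub, Prod.snd_sub, Int.cast_sub]
  ring

lemma zv11 : zv (1, 1) = 1 + gam := by simp [zv]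

lemma zc11 : zc (1, 1) = -gam := by simp [zc, phi_gam]

lemma zv21 : zv (2, 1) = 2 + gam := by simp [zv]

lemma zc21 : zc (2, 1) = 1 - gam := by simp [zc, phi_gam]; ring

lemma zv01 : zv (0, 1) = gam := by simp [zv]

lemma zc01 : zc (0, 1) = -phi := by simp [zc]

lemma zv_mul (x y : ℤ × ℤ) : zv (zm x y) = zv x * zv y := by
  have h := gam_sq
  simp only [zv, zm, Int.cast_add, Int.cast_sub, Int.cast_mul]
  linear_combination (-(x.2 : ℝ) * y.2) * h

lemma zc_mul (x y : ℤ × ℤ) : zc (zm x y) = zc x * zc y := by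
  have h := gam_sq
  simp only [zc, zm, phi_gam, Int.cast_add, Int.cast_sub, Int.cast_mul]
  linear_combination (-(x.2 : ℝ) * y.2) * h

lemma fwd (w : ℝ) (x : ℤ × ℤ) (h1 : w ≤ zc x) (h2 : zc x < w + 1) :
    ∃ y : ℤ × ℤ, w ≤ zc y ∧ zc y < w + 1 ∧ zv x + 1 ≤ zv y ∧ zv y ≤ zv x + phi ^ 2 := by
  have g0 := gam_pos
  have g1 := gam_lt
  have hp := phi_sq
  by_cases h : w + gam ≤ zc x
  · refine ⟨x + (1, 1), ?_, ?_, ?_, ?_⟩
    · rw [zc_add, zc11]; linarith
    · rw [zc_add, zc11]; linarith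
    · rw [zv_add, zv11]; linarith
    · rw [zv_add, zv11]; linarith
  · rw [not_le] at h
    refine ⟨x + (2, 1), ?_, ?_, ?_, ?_⟩
    · rw [zc_add, zc21]; linarith
    · rw [zc_add, zc21]; linarith
    · rw [zv_add, zv21]; linarith
    · rw [zv_add, zv21]; linarith

lemma bwd (w : ℝ) (x : ℤ × ℤ) (h1 : w ≤ zc x) (h2 : zc x < w + 1) :
    ∃ y : ℤ × ℤ, w ≤ zc y ∧ zc y < w + 1 ∧ zv y ≤ zv x - 1 := by
  have g0 := gam_pos
  have g1 := gam_lt
  by_cases h : w + (1 - gam) ≤ zc x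
  · refine ⟨x - (2, 1), ?_, ?_, ?_⟩
    · rw [zc_sub, zc21]; linarith
    · rw [zc_sub, zc21]; linarith
    · rw [zv_sub, zv21]; linarith
  · rw [not_le] at h
    refine ⟨x - (1, 1), ?_, ?_, ?_⟩
    · rw [zc_sub, zc11]; linarith
    · rw [zc_sub, zc11]; linarith
    · rw [zv_sub, zv11]; linarith

lemma part1 (a w : ℝ) : ∃ x : ℤ × ℤ, a ≤ zv x ∧ zv x < a + phi ^ 2 ∧ w ≤ zc x ∧ zc x < w + 1 := by
  have start : w ≤ zc (⌈w⌉, 0) ∧ zc (⌈w⌉, 0) < w + 1 := by
    have e : zc (⌈w⌉, 0) = (⌈w⌉ : ℝ) := by simp [zc]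
    rw [e]
    exact ⟨Int.le_ceil w, Int.ceil_lt_add_one w⟩
  have back : ∀ n : ℕ, ∃ y : ℤ × ℤ, w ≤ zc y ∧ zc y < w + 1 ∧ zv y ≤ zv (⌈w⌉, 0) - n := by
    intro n
    induction n with
    | zero => exact ⟨(⌈w⌉, 0), start.1, start.2, by simp⟩
    | succ n ih =>
      obtain ⟨y, h1, h2, h3⟩ := ih
      obtain ⟨z, k1, k2, k3⟩ := bwd w y h1 h2
      refine ⟨z, k1, k2, ?_⟩
      push_cast
      linarith
  obtain ⟨n, hn⟩ := exists_nat_gt (zv (⌈w⌉, 0) - a)
  obtain ⟨y0, h1, h2, h3⟩ := back n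
  have hy0 : zv y0 < a := by linarith
  have hp := phi_sq
  have g0 := gam_pos
  have forw : ∀ m : ℕ, (∃ x : ℤ × ℤ, a ≤ zv x ∧ zv x < a + phi ^ 2 ∧ w ≤ zc x ∧ zc x < w + 1) ∨
      (∃ y : ℤ × ℤ, w ≤ zc y ∧ zc y < w + 1 ∧ zv y < a ∧ zv y0 + m ≤ zv y) := by
    intro m
    induction m with
    | zero => exact Or.inr ⟨y0, h1, h2, hy0, by simp⟩
    | succ m ih =>
      rcases ih with h | ⟨y, k1, k2, k3, k4⟩
      · exact Or.inl h
      · obtain ⟨z, l1, l2, l3, l4⟩ := fwd w y k1 k2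
        by_cases hz : a ≤ zv z
        · exact Or.inl ⟨z, hz, by linarith, l1, l2⟩
        · rw [not_le] at hz
          refine Or.inr ⟨z, l1, l2, hz, ?_⟩
          push_cast
          linarith
  obtain ⟨m, hm⟩ := exists_nat_gt (a - zv y0)
  rcases forw m with h | ⟨y, k1, k2, k3, k4⟩
  · exact h
  · exfalso
    linarith

lemma unit (n : ℤ) : ∃ u : ℤ × ℤ, zv u = phi ^ (-n) ∧ (zc u = phi ^ n ∨ zc u = -phi ^ n) := by
  have hp : phi ≠ 0 := phi_pos.ne'
  have hpg : phi⁻¹ = gam := by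
    field_simp
    linarith [phi_mul_gam]
  induction n using Int.induction_on with
  | zero => exact ⟨(1, 0), by simp [zv], Or.inl (by simp [zc])⟩
  | succ n ih =>
    obtain ⟨u, h1, h2⟩ := ih
    refine ⟨zm (0, 1) u, ?_, ?_⟩
    · rw [zv_mul, zv01, h1, neg_add, zpow_add₀ hp, zpow_neg_one, hpg]
      ring
    · rw [zc_mul, zc01, zpow_add₀ hp, zpow_one]
      rcases h2 with h2 | h2
      · right; rw [h2]; ring
      · left; rw [h2]; ring
  | pred n ih =>
    obtain ⟨u, h1, h2⟩ := ih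
    refine ⟨zm (1, 1) u, ?_, ?_⟩
    · rw [zv_mul, zv11, h1, ← phi_gam, show -(-(n : ℤ) - 1) = -(-(n : ℤ)) + 1 by ring,
        zpow_add₀ hp, zpow_one]
      ring
    · rw [zc_mul, zc11, sub_eq_add_neg, zpow_add₀ hp, zpow_neg_one, hpg]
      rcases h2 with h2 | h2
      · right; rw [h2]; ring
      · left; rw [h2]; ring

theorem st_E9 : ST_E9 := by
  refine ⟨part1, ?_⟩
  intro a A w B hA hB hAB
  have g0 := gam_pos
  have p1 : 1 < phi := by rw [phi_gam]; linarith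
  have p0 : 0 < phi := phi_pos
  obtain ⟨n, hn1, hn2⟩ := exists_mem_Ico_zpow hB p1
  obtain ⟨u, hu, hc⟩ := unit n
  have hP : (0 : ℝ) < phi ^ n := zpow_pos p0 n
  have hPi : phi ^ (-n) * phi ^ n = 1 := by
    rw [← zpow_add₀ p0.ne']
    simp
  have hQ : (0 : ℝ) < phi ^ (-n) := zpow_pos p0 _
  -- the length in the first coordinate
  have hlen : phi ^ (-n) * phi ^ 2 ≤ A := by
    have e1 : phi ^ (n + 1) = phi ^ n * phi := by rw [zpow_add₀ p0.ne', zpow_one]
    rw [e1] at hn2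
    have h1 : phi ^ 3 ≤ A * (phi ^ n * phi) :=
      le_trans hAB (mul_le_mul_of_nonneg_left hn2.le hA.le)
    have h2 : phi ^ 2 ≤ A * phi ^ n := by
      have h3 : phi ^ 2 * phi ≤ (A * phi ^ n) * phi := by
        calc phi ^ 2 * phi = phi ^ 3 := by ring
          _ ≤ A * (phi ^ n * phi) := h1
          _ = (A * phi ^ n) * phi := by ring
      exact le_of_mul_le_mul_right h3 p0
    calc phi ^ (-n) * phi ^ 2 ≤ phi ^ (-n) * (A * phi ^ n) :=
          mul_le_mul_of_nonneg_left h2 hQ.le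
      _ = A * (phi ^ (-n) * phi ^ n) := by ring
      _ = A := by rw [hPi, mul_one]
  have key : ∀ y : ℤ × ℤ, a * phi ^ n ≤ zv y → zv y < a * phi ^ n + phi ^ 2 →
      a ≤ zv (zm u y) ∧ zv (zm u y) ≤ a + A := by
    intro y h1 h2
    rw [zv_mul, hu]
    constructor
    · calc a = phi ^ (-n) * (a * phi ^ n) := by
            rw [show phi ^ (-n) * (a * phi ^ n) = a * (phi ^ (-n) * phi ^ n) by ring, hPi, mul_one]
        _ ≤ phi ^ (-n) * zv y := mul_le_mul_of_nonneg_left h1 hQ.le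
    · calc phi ^ (-n) * zv y ≤ phi ^ (-n) * (a * phi ^ n + phi ^ 2) :=
            mul_le_mul_of_nonneg_left h2.le hQ.le
        _ = a * (phi ^ (-n) * phi ^ n) + phi ^ (-n) * phi ^ 2 := by ring
        _ ≤ a + A := by rw [hPi, mul_one]; linarith
  rcases hc with hc | hc
  · obtain ⟨y, h1, h2, h3, h4⟩ := part1 (a * phi ^ n) (w * phi ^ (-n))
    obtain ⟨k1, k2⟩ := key y h1 h2
    refine ⟨zm u y, k1, k2, ?_, ?_⟩
    · rw [zc_mul, hc]
      calc w = phi ^ n * (w * phi ^ (-n)) := by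
            rw [show phi ^ n * (w * phi ^ (-n)) = w * (phi ^ (-n) * phi ^ n) by ring, hPi, mul_one]
        _ ≤ phi ^ n * zc y := mul_le_mul_of_nonneg_left h3 hP.le
    · rw [zc_mul, hc]
      calc phi ^ n * zc y ≤ phi ^ n * (w * phi ^ (-n) + 1) :=
            mul_le_mul_of_nonneg_left h4.le hP.le
        _ = w * (phi ^ (-n) * phi ^ n) + phi ^ n := by ring
        _ ≤ w + B := by rw [hPi, mul_one]; linarith
  · obtain ⟨y, h1, h2, h3, h4⟩ := part1 (a * phi ^ n) (-w * phi ^ (-n) - 1)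
    obtain ⟨k1, k2⟩ := key y h1 h2
    refine ⟨zm u y, k1, k2, ?_, ?_⟩
    · rw [zc_mul, hc]
      have h5 : zc y ≤ -w * phi ^ (-n) := by linarith
      have h6 : phi ^ n * zc y ≤ phi ^ n * (-w * phi ^ (-n)) := mul_le_mul_of_nonneg_left h5 hP.le
      have h7 : phi ^ n * (-w * phi ^ (-n)) = -w := by
        rw [show phi ^ n * (-w * phi ^ (-n)) = -w * (phi ^ (-n) * phi ^ n) by ring, hPi, mul_one]
      rw [h7] at h6
      linarith
    · rw [zc_mul, hc]
      have h6 : phi ^ n * (-w * phi ^ (-n) - 1) ≤ phi ^ n * zc y :=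
        mul_le_mul_of_nonneg_left h3 hP.le
      have h7 : phi ^ n * (-w * phi ^ (-n) - 1) = -w - phi ^ n := by
        rw [show phi ^ n * (-w * phi ^ (-n) - 1) = -w * (phi ^ (-n) * phi ^ n) - phi ^ n by ring,
          hPi, mul_one]
      rw [h7] at h6
      linarith

end Pool.Agent.Helper33.CV.E9
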