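import Pool.Agent.Helper36.CV.StmtsG

/-!
# G2: differences of end points are not locally constant
-/

set_option autoImplicit false

namespace Pool.Agent.Helper36.CV

open Filter Topology Pointwise

noncomputable section

theorem g2_open (L0 : ℝ) : IsOpen (Om2 L0) := by
  have h1 : IsOpen {l : ℂ | L0 < ‖l‖} := isOpen_lt continuous_const continuous_norm
  have h2 : IsOpen {l : ℂ | ‖l‖ < 2 * l.re} :=
    isOpen_lt continuous_norm (continuous_const.mul Complex.continuous_re)
  exact h1.inter h2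

theorem g2_pre (L0 : ℝ) (hL : 1 ≤ L0) : IsPreconnected (Om2 L0) := by
  let H : Set ℂ := {z | ‖z‖ < 2 * z.re ∧ L0 < z.re}
  have hHc : Convex ℝ H := by
    intro x hx y hy a b ha hb hab
    obtain ⟨hx1, hx2⟩ := hx
    obtain ⟨hy1, hy2⟩ := hy
    have hre : (a • x + b • y).re = a * x.re + b * y.re := by simp
    have hn : ‖a • x + b • y‖ ≤ a * ‖x‖ + b * ‖y‖ := by
      refine (norm_add_le _ _).trans ?_
      rw [norm_smul, norm_smul, Real.norm_of_nonneg ha, Real.norm_of_nonneg hb]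
    have hpos : 0 < a ∨ 0 < b := by
      rcases ha.lt_or_eq with h | h
      · exact Or.inl h
      · right; rw [← h] at hab; linarith
    constructor
    · show ‖a • x + b • y‖ < 2 * (a • x + b • y).re
      rw [hre]
      rcases hpos with h | h
      · nlinarith [mul_pos h (sub_pos.2 hx1), mul_nonneg hb (sub_nonneg.2 hy1.le)]
      · nlinarith [mul_pos h (sub_pos.2 hy1), mul_nonneg ha (sub_nonneg.2 hx1.le)]
    · show L0 < (a • x + b • y).re
      rw [hre]
      rcases hpos with h | h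
      · nlinarith [mul_pos h (sub_pos.2 hx2), mul_nonneg hb (sub_nonneg.2 hy2.le)]
      · nlinarith [mul_pos h (sub_pos.2 hy2), mul_nonneg ha (sub_nonneg.2 hx2.le)]
  have hHs : H ⊆ Om2 L0 := by
    intro z hz
    exact ⟨hz.2.trans_le ((le_abs_self _).trans (Complex.abs_re_le_norm z)), hz.1⟩
  have hx0 : ((2 * L0 : ℝ) : ℂ) ∈ H := by
    refine ⟨?_, ?_⟩
    · rw [Complex.norm_real, Real.norm_of_nonneg (by linarith), Complex.ofReal_re]
      linarith
    · rw [Complex.ofReal_re]; linarith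
  apply isPreconnected_of_forall ((2 * L0 : ℝ) : ℂ)
  intro z hz
  obtain ⟨hz1, hz2⟩ := hz
  have h2z : (2 : ℝ) • z ∈ H := by
    refine ⟨?_, ?_⟩
    · rw [norm_smul, Real.norm_of_nonneg (by norm_num : (0:ℝ) ≤ 2)]
      simp only [Complex.smul_re, smul_eq_mul]
      linarith
    · simp only [Complex.smul_re, smul_eq_mul]
      linarith
  refine ⟨segment ℝ z ((2 : ℝ) • z) ∪ H, ?_, Or.inr hx0, Or.inl (left_mem_segment ℝ _ _), ?_⟩
  · apply Set.union_subset _ hHs
    rintro y ⟨a, b, ha, hb, hab, rfl⟩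
    have e : a • z + b • ((2 : ℝ) • z) = (a + 2 * b) • z := by
      rw [smul_smul, ← add_smul]; ring_nf
    have hb1 : 1 ≤ a + 2 * b := by linarith
    rw [e]
    refine ⟨?_, ?_⟩
    · rw [norm_smul, Real.norm_of_nonneg (by linarith)]
      nlinarith
    · rw [norm_smul, Real.norm_of_nonneg (by linarith)]
      simp only [Complex.smul_re, smul_eq_mul]
      nlinarith
  · exact IsPreconnected.union ((2 : ℝ) • z) (right_mem_segment ℝ _ _) h2z
      (convex_segment z _).isPreconnected hHc.isPreconnected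

theorem g2_mem (L0 l : ℝ) (hL : 1 ≤ L0) (hl : L0 < l) : (l : ℂ) ∈ Om2 L0 := by
  refine ⟨?_, ?_⟩
  · rw [Complex.norm_real, Real.norm_of_nonneg (by linarith)]; exact hl
  · rw [Complex.norm_real, Real.norm_of_nonneg (by linarith), Complex.ofReal_re]; linarith

/-- identity theorem on the sector -/
theorem g2_id (L0 : ℝ) (hL : 1 ≤ L0) (F : ℂ → ℂ) (hF : DifferentiableOn ℂ F (Om2 L0)) (c0 a b : ℝ)
    (ha : L0 < a) (hab : a < b) (h : ∀ l : ℝ, l ∈ Set.Ioo a b → F l = c0) :
    ∀ l : ℝ, L0 < l → F l = c0 := by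
  have hz0 : (((a + b) / 2 : ℝ) : ℂ) ∈ Om2 L0 := g2_mem L0 _ hL (by linarith)
  have hfr : ∃ᶠ z in 𝓝[≠] (((a + b) / 2 : ℝ) : ℂ), F z = (fun _ => (c0 : ℂ)) z := by
    let u : ℕ → ℂ := fun n => (((a + b) / 2 + (b - a) / 4 * (1 / ((n : ℝ) + 1)) : ℝ) : ℂ)
    have hu : Tendsto u atTop (𝓝[≠] (((a + b) / 2 : ℝ) : ℂ)) := by
      apply tendsto_nhdsWithin_iff.2
      constructor
      · have h1 : Tendsto (fun n : ℕ => (a + b) / 2 + (b - a) / 4 * (1 / ((n : ℝ) + 1))) atTop
            (𝓝 ((a + b) / 2 + (b - a) / 4 * 0)) :=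
          (tendsto_one_div_add_atTop_nhds_zero_nat.const_mul _).const_add _
        rw [mul_zero, add_zero] at h1
        exact (Complex.continuous_ofReal.tendsto _).comp h1
      · apply Eventually.of_forall
        intro n hn
        have h2 : (((a + b) / 2 + (b - a) / 4 * (1 / ((n : ℝ) + 1)) : ℝ) : ℂ) =
            (((a + b) / 2 : ℝ) : ℂ) := hn
        have h3 := Complex.ofReal_injective h2
        have h4 : 0 < (b - a) / 4 * (1 / ((n : ℝ) + 1)) := by
          apply mul_pos (by linarith)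
          positivity
        linarith
    apply hu.frequently
    apply Frequently.of_forall
    intro n
    apply h
    have h5 : (0:ℝ) < 1 / ((n : ℝ) + 1) := by positivity
    have h6 : 1 / ((n : ℝ) + 1) ≤ 1 := by
      rw [div_le_one (by positivity)]
      have : (0:ℝ) ≤ (n : ℝ) := Nat.cast_nonneg n
      linarith
    constructor
    · nlinarith
    · nlinarith
  have hE := (hF.analyticOnNhd (g2_open L0)).eqOn_of_preconnected_of_frequently_eq
    (analyticOnNhd_const) (g2_pre L0 hL) hz0 hfr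
  intro l hl
  exact hE (g2_mem L0 l hL hl)

def g2_pos (r : Fin 4) (l : ℝ) : ℝ := (![0, l - 1, l, l + 1] : Fin 4 → ℝ) r

/-- a constant within `2c/l` of a number equals it -/
theorem g2_lim (c c0 n L : ℝ) (hc : 1 ≤ c) (h : ∀ l : ℝ, L ≤ l → |c0 - n| ≤ 2 * c / l) : c0 = n := by
  by_contra hne
  have hpos : 0 < |c0 - n| := abs_pos.2 (sub_ne_zero.2 hne)
  have hl0 : (0:ℝ) < max L (4 * c / |c0 - n|) := lt_of_lt_of_le (by positivity) (le_max_right _ _)
  have h1 := h (max L (4 * c / |c0 - n|)) (le_max_left _ _)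
  have h2 : 4 * c / |c0 - n| ≤ max L (4 * c / |c0 - n|) := le_max_right _ _
  rw [le_div_iff₀ hl0] at h1
  rw [div_le_iff₀ hpos] at h2
  nlinarith

theorem g2_no (h10 : ST_K10) (h11 : ST_K11) (c L2 c0 : ℝ) (hc : 1 ≤ c) (x y : ℝ → ℝ)
    (hx : ∀ l, L2 ≤ l → x l ∈ Cs l) (hy : ∀ l, L2 ≤ l → y l ∈ Cs l) (r r' : Fin 4) (hr : r < r')
    (hxp : ∀ l, L2 ≤ l → |x l - g2_pos r l| ≤ c / l) (hyp : ∀ l, L2 ≤ l → |y l - g2_pos r' l| ≤ c / l)
    (hxy : ∀ l, L2 ≤ l → x l - y l = c0) : False := by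
  obtain ⟨L10, hL10, k10⟩ := h10
  obtain ⟨L11, hL11, k11⟩ := h11
  -- a large coupling
  obtain ⟨l, hl2, hl10, hl11, hlc, hlc0⟩ : ∃ l : ℝ, L2 ≤ l ∧ L10 ≤ l ∧ L11 ≤ l ∧ 4 * c ≤ l ∧
      |c0| + 3 < l := by
    refine ⟨max L2 (max L10 (max L11 (max (4 * c) (|c0| + 4)))), le_max_left _ _, ?_, ?_, ?_, ?_⟩
    · exact (le_max_left _ _).trans (le_max_right _ _)
    · exact ((le_max_left _ _).trans (le_max_right _ _)).trans (le_max_right _ _)
    · exact (((le_max_left _ _).trans (le_max_right _ _)).trans (le_max_right _ _)).trans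
        (le_max_right _ _)
    · have h1 : |c0| + 4 ≤ max L2 (max L10 (max L11 (max (4 * c) (|c0| + 4)))) :=
        (((le_max_right _ _).trans (le_max_right _ _)).trans (le_max_right _ _)).trans
          (le_max_right _ _)
      linarith
  have hlpos : 0 < l := by linarith
  have hcl : c / l ≤ 1 / 4 := by
    rw [div_le_iff₀ hlpos]; linarith
  have hx1 := (hxp l hl2).trans hcl
  have hy1 := (hyp l hl2).trans hcl
  have hxy1 := hxy l hl2
  have hc0 := abs_le.1 (le_refl |c0|)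
  -- the constant for a constant difference of positions
  have hconst : ∀ n : ℝ, (∀ l, g2_pos r l - g2_pos r' l = n) → c0 = n := by
    intro n hn
    apply g2_lim c c0 n (max L2 1) hc
    intro t ht
    have ht2 : L2 ≤ t := (le_max_left _ _).trans ht
    have ht0 : 0 < t := lt_of_lt_of_le one_pos ((le_max_right _ _).trans ht)
    have e : c0 - n = (x t - g2_pos r t) - (y t - g2_pos r' t) := by
      rw [← hxy t ht2, ← hn t]; ring
    rw [e]
    calc |(x t - g2_pos r t) - (y t - g2_pos r' t)| ≤ |x t - g2_pos r t| + |y t - g2_pos r' t| :=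
          abs_sub _ _
      _ ≤ c / t + c / t := add_le_add (hxp t ht2) (hyp t ht2)
      _ = 2 * c / t := by ring
  have hxa := abs_le.1 hx1
  have hya := abs_le.1 hy1
  fin_cases r <;> fin_cases r'
  · exact absurd hr (by decide)
  · simp [g2_pos] at hxa hya
    linarith [hxa.1, hxa.2, hya.1, hya.2, hc0.1, hc0.2]
  · simp [g2_pos] at hxa hya
    linarith [hxa.1, hxa.2, hya.1, hya.2, hc0.1, hc0.2]
  · simp [g2_pos] at hxa hya
    linarith [hxa.1, hxa.2, hya.1, hya.2, hc0.1, hc0.2]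
  · exact absurd hr (by decide)
  · exact absurd hr (by decide)
  · have h1 : c0 = -1 := hconst (-1) (by intro t; simp [g2_pos])
    have h2 : |y l - l| ≤ 1 / 4 := by simpa [g2_pos] using hy1
    have h3 : |x l - (l - 1)| ≤ 1 / 4 := by simpa [g2_pos] using hx1
    exact (k10 l hl10 (y l) (hy l hl2) (x l) (hx l hl2)).2 h2 h3 (by linarith)
  · have h1 : c0 = -2 := hconst (-2) (by intro t; simp [g2_pos]; ring)
    have h2 : |y l - (l + 1)| ≤ 1 / 4 := by simpa [g2_pos] using hy1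
    have h3 : |x l - (l - 1)| ≤ 1 / 4 := by simpa [g2_pos] using hx1
    exact k11 l hl11 (y l) (hy l hl2) (x l) (hx l hl2) h2 h3 (by linarith)
  · exact absurd hr (by decide)
  · exact absurd hr (by decide)
  · exact absurd hr (by decide)
  · have h1 : c0 = -1 := hconst (-1) (by intro t; simp [g2_pos])
    have h2 : |y l - (l + 1)| ≤ 1 / 4 := by simpa [g2_pos] using hy1
    have h3 : |x l - l| ≤ 1 / 4 := by simpa [g2_pos] using hx1
    exact (k10 l hl10 (y l) (hy l hl2) (x l) (hx l hl2)).1 h2 h3 (by linarith)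
  · exact absurd hr (by decide)
  · exact absurd hr (by decide)
  · exact absurd hr (by decide)
  · exact absurd hr (by decide)

theorem g2_core (h10 : ST_K10) (h11 : ST_K11) (c L0 L2 : ℝ) (hc : 1 ≤ c) (hL : 1 ≤ L0)
    (hL2 : L0 < L2) (f g : ℂ → ℂ) (hf : DifferentiableOn ℂ f (Om2 L0))
    (hg : DifferentiableOn ℂ g (Om2 L0)) (fr : ∀ l : ℝ, L0 < l → (f l).im = 0)
    (gr : ∀ l : ℝ, L0 < l → (g l).im = 0)
    (hx : ∀ l : ℝ, L2 ≤ l → (f l).re ∈ Cs l) (hy : ∀ l : ℝ, L2 ≤ l → (g l).re ∈ Cs l) (r r' : Fin 4)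
    (hxp : ∀ l : ℝ, L2 ≤ l → |(f l).re - g2_pos r l| ≤ c / l)
    (hyp : ∀ l : ℝ, L2 ≤ l → |(g l).re - g2_pos r' l| ≤ c / l) :
    (∀ l : ℝ, L0 < l → (f l).re = (g l).re) ∨
    (∀ c0 a b : ℝ, L0 < a → a < b → ∃ l ∈ Set.Ioo a b, (f l).re - (g l).re ≠ c0) := by
  by_cases hcon : ∀ c0 a b : ℝ, L0 < a → a < b → ∃ l ∈ Set.Ioo a b, (f l).re - (g l).re ≠ c0
  · exact Or.inr hcon
  left
  push Not at hcon
  obtain ⟨c0, a, b, ha, hab, h⟩ := hcon
  have key := g2_id L0 hL (fun l => f l - g l) (hf.sub hg) c0 a b ha hab (by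
    intro l hl
    have hl0 : L0 < l := ha.trans hl.1
    apply Complex.ext
    · rw [Complex.sub_re, Complex.ofReal_re]
      exact h l hl
    · rw [Complex.sub_im, Complex.ofReal_im, fr l hl0, gr l hl0, sub_zero])
  have keyr : ∀ l : ℝ, L0 < l → (f l).re - (g l).re = c0 := by
    intro l hl
    have := congrArg Complex.re (key l hl)
    rwa [Complex.sub_re, Complex.ofReal_re] at this
  rcases lt_trichotomy r r' with hr | hr | hr
  · exact (g2_no h10 h11 c L2 c0 hc (fun l => (f l).re) (fun l => (g l).re) hx hy r r' hr hxp hyp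
      (fun l hl => keyr l (hL2.trans_le hl))).elim
  · have h0 : c0 = 0 := by
      apply g2_lim c c0 0 L2 hc
      intro t ht
      have e : c0 - 0 = ((f t).re - g2_pos r t) - ((g t).re - g2_pos r' t) := by
        rw [← keyr t (hL2.trans_le ht), hr]; ring
      rw [e]
      calc |((f t).re - g2_pos r t) - ((g t).re - g2_pos r' t)|
          ≤ |(f t).re - g2_pos r t| + |(g t).re - g2_pos r' t| := abs_sub _ _
        _ ≤ c / t + c / t := add_le_add (hxp t ht) (hyp t ht)
        _ = 2 * c / t := by ring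
    intro l hl
    have := keyr l hl
    rw [h0] at this
    linarith
  · exact (g2_no h10 h11 c L2 (-c0) hc (fun l => (g l).re) (fun l => (f l).re) hy hx r' r hr hyp hxp
      (fun l hl => by
        have := keyr l (hL2.trans_le hl)
        show (g l).re - (f l).re = -c0
        linarith)).elim

/-- nesting -/
theorem g2_nest (ε c : ℝ) (K : Set ℝ) {ι : Type} (lo hi t : ι → ℝ) (g : Fin 3 → ι → ι)
    (h : IsKD ε c K lo hi t g) (hc : 1 ≤ c) (he : 0 < ε) (hce : c * ε ≤ 1 / 8) (i : Fin 3) (j : ι) :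
    lo j ≤ lo (g i j) ∧ hi (g i j) ≤ hi j := by
  have hlen : 0 < hi j - lo j := sub_pos.2 (h.lt j)
  have he8 : ε ≤ 1 / 8 := by nlinarith
  have ht : |t j| ≤ 1 := by
    rcases h.tv j with h1 | h1 | h1 <;> rw [h1] <;> norm_num
  have ht' := abs_le.1 ht
  have hch := h.lt (g i j)
  have he2 : ε ^ 2 ≤ ε / 8 := by nlinarith
  have hce2 : c * ε ^ 2 ≤ 1 / 64 := by nlinarith [mul_pos he he]
  have hce3 : c * ε ^ 3 ≤ 1 / 64 := by
    have : c * ε ^ 3 = (c * ε ^ 2) * ε := by ring
    rw [this]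
    nlinarith [mul_nonneg (by linarith : (0:ℝ) ≤ c) (sq_nonneg ε)]
  have hce3' : 0 ≤ c * ε ^ 3 := by positivity
  fin_cases i
  · have h1 := abs_le.1 (h.nL j)
    have h2 := h.lL j
    have h3 : hi (g 0 j) - lo (g 0 j) ≤ hi j - lo j := by
      have h4 : ε * (1 + 2 * ε * t j) + c * ε ^ 3 ≤ 1 := by nlinarith [ht'.2, mul_pos he he]
      nlinarith [h1.2]
    constructor
    · show lo j ≤ lo (g 0 j)
      rw [h2]
    · show hi (g 0 j) ≤ hi j
      linarith
  · have h1 := abs_le.1 (h.nA j)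
    have h2 := abs_le.1 (h.cA j)
    have e1 : hi (g 1 j) - lo (g 1 j) ≤ (1 / 4) * (hi j - lo j) := by
      have h4 : 4 * ε ^ 2 + c * ε ^ 3 ≤ 1 / 4 := by nlinarith
      nlinarith [h1.2]
    have e2 : 3 / 4 * t j * ε + c * ε ^ 2 ≤ 1 / 4 := by nlinarith [ht'.2]
    have e3 : -(1 / 4) ≤ 3 / 4 * t j * ε - c * ε ^ 2 := by nlinarith [ht'.1]
    have e4 := mul_le_mul_of_nonneg_right e2 hlen.le
    have e5 := mul_le_mul_of_nonneg_right e3 hlen.le
    constructor
    · show lo j ≤ lo (g 1 j)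
      nlinarith [h2.1]
    · show hi (g 1 j) ≤ hi j
      nlinarith [h2.2]
  · have h1 := abs_le.1 (h.nR j)
    have h2 := h.hR j
    have h3 : hi (g 2 j) - lo (g 2 j) ≤ hi j - lo j := by
      have h4 : ε * (1 - 2 * ε * t j) + c * ε ^ 3 ≤ 1 := by nlinarith [ht'.1, mul_pos he he]
      nlinarith [h1.2]
    constructor
    · show lo j ≤ lo (g 2 j)
      linarith
    · show hi (g 2 j) ≤ hi j
      rw [h2]

theorem g2_in {c L0 : ℝ} (hc : 1 ≤ c) (U : KM c L0) (l : ℝ) (hl : L0 < l) (hl4 : 4 * c ≤ l) (r : Fin 4)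
    (L : List (Fin 3)) : (U.lo (r, []) l).re ≤ (U.lo (r, L) l).re ∧
      (U.hi (r, L) l).re ≤ (U.hi (r, []) l).re := by
  have hl0 : 0 < l := by linarith
  induction L with
  | nil => exact ⟨le_refl _, le_refl _⟩
  | cons i L ih =>
    have hn := g2_nest (1 / (2 * l)) c (Cs l) (fun w : Wd => (U.lo w l).re)
      (fun w : Wd => (U.hi w l).re) ty ch (U.kd l hl) hc (by positivity) (by
        rw [mul_one_div, div_le_div_iff₀ (by positivity) (by norm_num)]
        linarith) i (r, L)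
    exact ⟨ih.1.trans hn.1, hn.2.trans ih.2⟩

theorem g2_near {c L0 : ℝ} (hc : 1 ≤ c) (U : KM c L0) (l : ℝ) (hl : L0 < l) (hl4 : 4 * c ≤ l) (w : Wd) :
    |(U.lo w l).re - g2_pos w.1 l| ≤ c / l ∧ |(U.hi w l).re - g2_pos w.1 l| ≤ c / l := by
  obtain ⟨r, L⟩ := w
  have h1 := g2_in hc U l hl hl4 r L
  have h2 := (U.kd l hl).lt (r, L)
  have h2' : (U.lo (r, L) l).re < (U.hi (r, L) l).re := h2
  have h3 := U.rts l hl r
  have h4 : |(U.lo (r, []) l).re - g2_pos r l| ≤ c / l := h3.1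
  have h5 : |(U.hi (r, []) l).re - g2_pos r l| ≤ c / l := h3.2
  rw [abs_le] at h4 h5
  constructor
  · rw [abs_le]
    constructor
    · show -(c / l) ≤ (U.lo (r, L) l).re - g2_pos r l
      linarith [h1.1, h4.1]
    · show (U.lo (r, L) l).re - g2_pos r l ≤ c / l
      linarith [h1.2, h5.2]
  · rw [abs_le]
    constructor
    · show -(c / l) ≤ (U.hi (r, L) l).re - g2_pos r l
      linarith [h1.1, h4.1]
    · show (U.hi (r, L) l).re - g2_pos r l ≤ c / l
      linarith [h1.2, h5.2]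

theorem st_G2 (h10 : ST_K10) (h11 : ST_K11) : ST_G2 := by
  intro c L0 hc hL U w w'
  have hL2 : L0 < max (L0 + 1) (4 * c) := lt_of_lt_of_le (by linarith) (le_max_left _ _)
  constructor
  · apply g2_core h10 h11 c L0 (max (L0 + 1) (4 * c)) hc hL hL2 (U.lo w) (U.lo w') (U.an_l w)
      (U.an_l w') (U.re_l w) (U.re_l w') _ _ w.1 w'.1
    · intro l hl
      exact (g2_near hc U l (hL2.trans_le hl) ((le_max_right _ _).trans hl) w).1
    · intro l hl
      exact (g2_near hc U l (hL2.trans_le hl) ((le_max_right _ _).trans hl) w').1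
    · intro l hl
      exact (U.kd l (hL2.trans_le hl)).lm w
    · intro l hl
      exact (U.kd l (hL2.trans_le hl)).lm w'
  · apply g2_core h10 h11 c L0 (max (L0 + 1) (4 * c)) hc hL hL2 (U.hi w) (U.hi w') (U.an_h w)
      (U.an_h w') (U.re_h w) (U.re_h w') _ _ w.1 w'.1
    · intro l hl
      exact (g2_near hc U l (hL2.trans_le hl) ((le_max_right _ _).trans hl) w).2
    · intro l hl
      exact (g2_near hc U l (hL2.trans_le hl) ((le_max_right _ _).trans hl) w').2
    · intro l hl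
      exact (U.kd l (hL2.trans_le hl)).hm w
    · intro l hl
      exact (U.kd l (hL2.trans_le hl)).hm w'

end

end Pool.Agent.Helper36.CV
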